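import Pool.Agent.Helper33.DP.Sheet

/-! A routing of the named colours. -/

set_option autoImplicit false

namespace Pool.Agent.Helper52.PL

open Finset Pool.Agent.Helper33.DP

/-- A finite set is partitioned into parts of given sizes. -/
theorem parts {α : Type} [DecidableEq α] {w : ℕ} (S : Finset α) (n : Fin w → ℕ)
    (hn : ∑ x, n x = S.card) :
    ∃ g : α → Option (Fin w), (∀ c ∈ S, ∃ x, g c = some x) ∧
      ∀ x, (S.filter (fun c => g c = some x)).card = n x := by
  classical
  have hcard : Fintype.card S = Fintype.card (Σ x : Fin w, Fin (n x)) := by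
    rw [Fintype.card_coe, Fintype.card_sigma, ← hn]
    exact sum_congr rfl fun x _ => (Fintype.card_fin _).symm
  let e : S ≃ Σ x : Fin w, Fin (n x) := Fintype.equivOfCardEq hcard
  refine ⟨fun c => if h : c ∈ S then some (e ⟨c, h⟩).1 else none, ?_, ?_⟩
  · intro c hc
    exact ⟨(e ⟨c, hc⟩).1, dif_pos hc⟩
  · intro x
    have h1 : (univ : Finset (Fin (n x))).card = n x := by
      rw [card_univ, Fintype.card_fin]
    rw [← h1]
    symm
    refine card_bij (fun k _ => ((e.symm ⟨x, k⟩ : S) : α)) ?_ ?_ ?_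
    · intro k _
      have h2 : ((e.symm ⟨x, k⟩ : S) : α) ∈ S := (e.symm ⟨x, k⟩).2
      rw [mem_filter]
      refine ⟨h2, ?_⟩
      show (if h : ((e.symm ⟨x, k⟩ : S) : α) ∈ S then some (e ⟨_, h⟩).1 else none) = some x
      rw [dif_pos h2]
      have h3 : (⟨((e.symm ⟨x, k⟩ : S) : α), h2⟩ : S) = e.symm ⟨x, k⟩ := Subtype.ext rfl
      rw [h3, Equiv.apply_symm_apply]
    · intro k _ k' _ hk
      have h2 : e.symm ⟨x, k⟩ = e.symm ⟨x, k'⟩ := Subtype.ext hk
      have h3 := e.symm.injective h2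
      exact eq_of_heq (Sigma.mk.inj h3).2
    · intro c hc
      rw [mem_filter] at hc
      obtain ⟨hS, hc⟩ := hc
      replace hc : (if h : c ∈ S then some (e ⟨c, h⟩).1 else none) = some x := hc
      rw [dif_pos hS] at hc
      have h4 : (e ⟨c, hS⟩).1 = x := Option.some.inj hc
      have h5 : ∃ k, e ⟨c, hS⟩ = ⟨x, k⟩ := by
        subst h4
        exact ⟨(e ⟨c, hS⟩).2, rfl⟩
      obtain ⟨k, hk⟩ := h5
      refine ⟨k, mem_univ _, ?_⟩
      rw [← hk, Equiv.symm_apply_apply]

theorem NAM : ST_NAM := by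
  intro w N G₁ G₂ p q z hR
  classical
  obtain ⟨S, hS⟩ : ∃ S : Fin w → Fin w → Finset (Fin N), ∀ a b,
      S a b = univ.filter (fun c => p c = some a ∧ q c = some b) := ⟨_, fun _ _ => rfl⟩
  have hz0 : ∀ a b, (a, b) ∉ comp G₁ G₂ → ∀ x, z a x b = 0 := by
    intro a b hab x
    by_contra hc
    refine hab ?_
    unfold comp
    rw [mem_filter]
    exact ⟨mem_univ _, x, hR.supp a x b hc⟩
  have hg : ∀ a b, ∃ g : Fin N → Option (Fin w),
      (∀ c ∈ S a b, (a, b) ∉ comp G₁ G₂ → g c = none) ∧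
      ∀ x, ((S a b).filter (fun c => g c = some x)).card = z a x b := by
    intro a b
    by_cases hab : (a, b) ∈ comp G₁ G₂
    · have h1 : ∑ x, z a x b = (S a b).card := by
        rw [hR.sum a b hab, hS a b]
        rfl
      obtain ⟨g, hg1, hg2⟩ := parts (S a b) (fun x => z a x b) h1
      exact ⟨g, fun c _ h => absurd hab h, hg2⟩
    · refine ⟨fun _ => none, fun _ _ _ => rfl, fun x => ?_⟩
      rw [hz0 a b hab x, card_eq_zero, filter_eq_empty_iff]
      intro c _ h
      cases h
  choose g hg1 hg2 using hg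
  obtain ⟨r, hr⟩ : ∃ r : Fin N → Option (Fin w), ∀ c, r c =
      (p c).bind (fun a => (q c).bind (fun b => g a b c)) := ⟨_, fun _ => rfl⟩
  have hr1 : ∀ c x, r c = some x → ∃ a b, p c = some a ∧ q c = some b ∧ g a b c = some x := by
    intro c x h
    rw [hr c, Option.bind_eq_some_iff] at h
    obtain ⟨a, ha, h⟩ := h
    rw [Option.bind_eq_some_iff] at h
    obtain ⟨b, hb, h⟩ := h
    exact ⟨a, b, ha, hb, h⟩
  have hr2 : ∀ c a b, p c = some a → q c = some b → r c = g a b c := by
    intro c a b ha hb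
    rw [hr c, ha, hb]
    rfl
  -- the size of the parts
  have hcard : ∀ a x b, (univ.filter (fun c : Fin N => p c = some a ∧ q c = some b ∧
      r c = some x)).card = z a x b := by
    intro a x b
    rw [← hg2 a b x]
    congr 1
    ext c
    rw [mem_filter, mem_filter, hS a b, mem_filter]
    constructor
    · rintro ⟨_, ha, hb, hc⟩
      exact ⟨⟨mem_univ _, ha, hb⟩, by rw [← hr2 c a b ha hb]; exact hc⟩
    · rintro ⟨⟨_, ha, hb⟩, hc⟩
      exact ⟨mem_univ _, ha, hb, by rw [hr2 c a b ha hb]; exact hc⟩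
  refine ⟨r, ?_, ?_, ?_⟩
  · intro c x h
    obtain ⟨a, b, ha, hb, h1⟩ := hr1 c x h
    refine ⟨a, b, ha, hb, hR.supp a x b ?_⟩
    rw [← hcard a x b]
    refine (card_pos.2 ⟨c, ?_⟩).ne'
    rw [mem_filter]
    exact ⟨mem_univ _, ha, hb, h⟩
  · intro a x
    unfold cnt
    rw [← sum_congr rfl (fun b _ => hcard a x b), ← card_biUnion]
    · congr 1
      ext c
      rw [mem_filter, mem_biUnion]
      constructor
      · rintro ⟨_, ha, h⟩
        obtain ⟨a', b, ha', hb, _⟩ := hr1 c x h
        exact ⟨b, mem_univ _, mem_filter.2 ⟨mem_univ _, ha, hb, h⟩⟩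
      · rintro ⟨b, _, hc⟩
        rw [mem_filter] at hc
        exact ⟨mem_univ _, hc.2.1, hc.2.2.2⟩
    · intro b _ b' _ hbb
      rw [Function.onFun, disjoint_left]
      intro c hc hc'
      rw [mem_filter] at hc hc'
      exact hbb (Option.some.inj (hc.2.2.1.symm.trans hc'.2.2.1))
  · intro x b
    unfold cnt
    rw [← sum_congr rfl (fun a _ => hcard a x b), ← card_biUnion]
    · congr 1
      ext c
      rw [mem_filter, mem_biUnion]
      constructor
      · rintro ⟨_, h, hb⟩
        obtain ⟨a, b', ha, hb', _⟩ := hr1 c x h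
        exact ⟨a, mem_univ _, mem_filter.2 ⟨mem_univ _, ha, hb, h⟩⟩
      · rintro ⟨a, _, hc⟩
        rw [mem_filter] at hc
        exact ⟨mem_univ _, hc.2.2.2, hc.2.2.1⟩
    · intro a _ a' _ haa
      rw [Function.onFun, disjoint_left]
      intro c hc hc'
      rw [mem_filter] at hc hc'
      exact haa (Option.some.inj (hc.2.1.symm.trans hc'.2.1))

end Pool.Agent.Helper52.PL
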