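import Pool.Agent.Helper26.PL.PD

/-! The gap of a point, and the start of the algorithm. -/

set_option autoImplicit false

namespace Pool.Agent.Helper52.PL

open Finset Pool.Agent.Helper33.DP Pool.Agent.Helper26.PL

theorem anti_inj {w : ℕ} {P : Set ℕ} {le : ℕ → ℕ → Prop} (hP : PO P le w) {X : Fin w → ℕ}
    (hX : Anti P le X) : Function.Injective X := by
  intro i j h
  by_contra hij
  refine hX.2 i j hij ?_
  rw [h]
  exact hP.refl _ (hX.1 j)

/-- A point is comparable to some point of every maximum antichain. -/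
theorem comparable {w : ℕ} {P : Set ℕ} {le : ℕ → ℕ → Prop} (hP : PO P le w) {X : Fin w → ℕ}
    (hX : Anti P le X) {n : ℕ} (hn : n ∈ P) : (∃ a, le (X a) n) ∨ ∃ b, le n (X b) := by
  classical
  by_contra hc
  rw [not_or, not_exists, not_exists] at hc
  obtain ⟨h1, h2⟩ := hc
  have hne : ∀ i, X i ≠ n := by
    intro i h
    refine h1 i ?_
    rw [h]
    exact hP.refl _ hn
  have hni : n ∉ univ.image X := by
    rw [mem_image]
    rintro ⟨i, _, h⟩
    exact hne i h
  have h3 := hP.width (insert n (univ.image X)) ?_ ?_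
  · rw [card_insert_of_notMem hni, card_image_of_injective _ (anti_inj hP hX), card_univ,
      Fintype.card_fin] at h3
    omega
  · intro a ha
    rw [mem_insert, mem_image] at ha
    rcases ha with ha | ⟨i, _, ha⟩
    · rw [ha]
      exact hn
    · rw [← ha]
      exact hX.1 i
  · intro a ha b hb hab
    rw [mem_insert, mem_image] at ha hb
    rcases ha with ha | ⟨i, _, ha⟩
    · rcases hb with hb | ⟨j, _, hb⟩
      · exact absurd (ha.trans hb.symm) hab
      · rw [ha, ← hb]
        exact h2 j
    · rcases hb with hb | ⟨j, _, hb⟩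
      · rw [← ha, hb]
        exact h1 i
      · rw [← ha, ← hb]
        refine hX.2 i j fun hij => hab ?_
        rw [← ha, ← hb, hij]

/-- Two neighbours in a list. -/
theorem neighbours {α : Type} (D U : α → Prop) (y : α) (hy : U y) :
    ∀ (t : List α) (x : α), D x → (∀ z ∈ t, D z ∨ U z) →
    ∃ (s s' : List α) (l l' : α), x :: (t ++ [y]) = s ++ l :: l' :: s' ∧ D l ∧ U l' := by
  intro t
  induction t with
  | nil => exact fun x hx _ => ⟨[], [], x, y, rfl, hx, hy⟩
  | cons z t ih =>
    intro x hx hz
    rcases hz z List.mem_cons_self with h | h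
    · obtain ⟨s, s', l, l', h1, h2, h3⟩ := ih z h
        (fun z' hz' => hz z' (List.mem_cons_of_mem _ hz'))
      refine ⟨x :: s, s', l, l', ?_, h2, h3⟩
      rw [List.cons_append, h1, List.cons_append]
    · exact ⟨[], t ++ [y], x, z, rfl, hx, h⟩

theorem PA1a : ST_PA1a := by
  intro w N Good P le bot top s n hP hI hn hb ht
  obtain ⟨l, l', t, hs, hl, hl'⟩ := hI.ends
  have h := neighbours (fun l : Lev w N => ∃ a, le (l.1 a) n) (fun l => ∃ b, le n (l.1 b)) l'
    (by rw [hl']; exact ht) t l (by rw [hl]; exact hb)
    (fun z hz => comparable hP (hI.an z (by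
      rw [hs]
      exact List.mem_cons_of_mem _ (List.mem_append_left _ hz))) hn)
  obtain ⟨u, u', m, m', h1, h2, h3⟩ := h
  exact ⟨u, u', m, m', hs.trans h1, h2, h3⟩

theorem PA3 : ST_PA3 := by
  intro w N Good P le bot top hw hS hP hbot htop hle
  classical
  obtain ⟨c, hc, hG⟩ := hS.start
  have hcard : Fintype.card (Fin N) = Fintype.card (Fin w × Fin w × Fin c) := by
    rw [Fintype.card_prod, Fintype.card_prod, Fintype.card_fin, Fintype.card_fin,
      Fintype.card_fin, ← hc, mul_assoc]
  let e : Fin N ≃ Fin w × Fin w × Fin c := Fintype.equivOfCardEq hcard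
  have hcore : core le bot top = univ := by
    refine eq_univ_of_forall fun x => ?_
    unfold core
    rw [mem_filter]
    exact ⟨mem_univ _, Equiv.swap x.1 x.2, Equiv.swap_apply_left _ _, fun i => hle _ _⟩
  have hcnt : cnt (fun k => some (e k).1) (fun k => some (e k).2.1) = fun _ _ : Fin w => c := by
    funext a b
    unfold cnt
    have h1 : (univ : Finset (Fin c)).card = c := by rw [card_univ, Fintype.card_fin]
    refine Eq.trans ?_ h1
    symm
    refine card_bij (fun k _ => e.symm (a, b, k)) ?_ ?_ ?_
    · intro k _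
      rw [mem_filter]
      refine ⟨mem_univ _, ?_, ?_⟩
      · show some (e (e.symm (a, b, k))).1 = some a
        rw [Equiv.apply_symm_apply]
      · show some (e (e.symm (a, b, k))).2.1 = some b
        rw [Equiv.apply_symm_apply]
    · intro k _ k' _ h
      have h2 := e.symm.injective h
      exact (Prod.ext_iff.1 (Prod.ext_iff.1 h2).2).2
    · intro k hk
      rw [mem_filter] at hk
      refine ⟨(e k).2.2, mem_univ _, ?_⟩
      have h2 : (a, b, (e k).2.2) = e k := by
        refine Prod.ext (Option.some.inj hk.2.1).symm (Prod.ext ?_ rfl)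
        exact (Option.some.inj hk.2.2).symm
      rw [h2, Equiv.symm_apply_apply]
  refine ⟨fun k => some (e k).1, fun k => some (e k).2.1, ?_, ?_, ?_, ?_⟩
  · intro l hl
    rw [List.mem_cons, List.mem_cons] at hl
    rcases hl with hl | hl | hl
    · rw [hl]
      exact hbot
    · rw [hl]
      exact htop
    · exact absurd hl List.not_mem_nil
  · rw [List.pairwise_cons]
    refine ⟨?_, List.pairwise_singleton _ _⟩
    intro l hl
    rw [List.mem_singleton] at hl
    rw [hl]
    exact ⟨fun a => ⟨a, hle _ _⟩, fun k a b _ _ => hle _ _⟩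
  · rw [List.isChain_cons_cons]
    refine ⟨?_, List.isChain_singleton _⟩
    show Good (core le bot top) (cnt (fun k => some (e k).1) (fun k => some (e k).2.1))
    rw [hcore, hcnt]
    exact hG
  · exact ⟨_, _, [], rfl, rfl, rfl⟩

end Pool.Agent.Helper52.PL
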